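import Pool.Agent.K1H70.KG.Stm
import Pool.Agent.K1H24.KR.Red

/-! Linear substitutions and the Fischer pairing (helper68, for helper70, project KG). -/

set_option autoImplicit false

namespace Pool.Agent.K1H68.KG

open MvPolynomial Pool.Agent.K1H70.KR

variable {σ : Type}

/-- a linear substitution does not change the constant coefficient -/
theorem coeff_zero_aeval (f : σ → MvPolynomial σ ℂ) (hf : ∀ u, constantCoeff (f u) = 0)
    (h : MvPolynomial σ ℂ) : coeff 0 (aeval f h) = coeff 0 h := by
  have h1 : (constantCoeff : MvPolynomial σ ℂ →+* ℂ).comp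
      ((aeval f : MvPolynomial σ ℂ →ₐ[ℂ] MvPolynomial σ ℂ) :
        MvPolynomial σ ℂ →+* MvPolynomial σ ℂ) = constantCoeff := by
    apply MvPolynomial.ringHom_ext
    · intro c
      simp
    · intro u
      simp [hf]
  have h2 := congrArg (fun φ : MvPolynomial σ ℂ →+* ℂ => φ h) h1
  simpa [constantCoeff_eq] using h2

theorem pderiv_lin [Fintype σ] (L : σ → σ → ℂ) (u v : σ) :
    pderiv u (∑ w, C (L w v) * X w : MvPolynomial σ ℂ) = C (L u v) := by
  classical
  rw [map_sum, Finset.sum_eq_single u]
  · rw [Derivation.leibniz, pderiv_C, pderiv_X_self]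
    simp
  · intro w _ hw
    rw [Derivation.leibniz, pderiv_C, pderiv_X_of_ne hw]
    simp
  · intro h
    exact absurd (Finset.mem_univ u) h

/-- the chain rule for a linear substitution -/
theorem pderiv_subst [Fintype σ] (L : σ → σ → ℂ) (u : σ) (h : MvPolynomial σ ℂ) :
    pderiv u (aeval (fun v => ∑ w, C (L w v) * X w : σ → MvPolynomial σ ℂ) h) =
      ∑ w, L u w • aeval (fun v => ∑ w, C (L w v) * X w : σ → MvPolynomial σ ℂ)
        (pderiv w h) := by
  classical
  induction h using MvPolynomial.induction_on with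
  | C a => simp
  | add p q hp hq =>
    rw [map_add, map_add, hp, hq, ← Finset.sum_add_distrib]
    refine Finset.sum_congr rfl fun w _ => ?_
    rw [map_add, map_add, smul_add]
  | mul_X p v hp =>
    rw [map_mul, Derivation.leibniz, hp, aeval_X, pderiv_lin, smul_eq_mul, smul_eq_mul,
      Finset.mul_sum]
    have h1 : ∀ w, L u w • aeval (fun v => ∑ w, C (L w v) * X w : σ → MvPolynomial σ ℂ)
        (pderiv w (p * X v)) =
        (if w = v then L u w • aeval (fun v => ∑ w, C (L w v) * X w : σ → MvPolynomial σ ℂ) p
          else 0) + (∑ w, C (L w v) * X w) *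
          (L u w • aeval (fun v => ∑ w, C (L w v) * X w : σ → MvPolynomial σ ℂ)
            (pderiv w p)) := by
      intro w
      rw [Derivation.leibniz, map_add, smul_eq_mul, smul_eq_mul, map_mul, map_mul, aeval_X,
        smul_add, mul_smul_comm]
      congr 1
      by_cases hw : w = v
      · subst hw
        rw [if_pos rfl, pderiv_X_self, map_one, mul_one]
      · rw [if_neg hw, pderiv_X_of_ne (Ne.symm hw), map_zero, mul_zero, smul_zero]
    rw [Finset.sum_congr rfl fun w _ => h1 w, Finset.sum_add_distrib, Finset.sum_ite_eq'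
      Finset.univ v, if_pos (Finset.mem_univ v)]
    congr 1
    rw [mul_comm, MvPolynomial.C_mul']

theorem t_SUB : Pool.Agent.K1H70.KG.S_SUB := by
  classical
  intro σ _ L g
  induction g using MvPolynomial.induction_on with
  | C a =>
    intro h
    have h0 : ∀ u, constantCoeff (∑ w, C (L w u) * X w : MvPolynomial σ ℂ) = 0 := by
      intro u
      simp
    have hC : (C a : MvPolynomial σ ℂ) = monomial 0 a := rfl
    have e1 : aeval (fun u => ∑ w, C (L u w) * X w : σ → MvPolynomial σ ℂ) (C a) =
        (C a : MvPolynomial σ ℂ) := by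
      simp
    rw [e1, hC, fis_monomial, fis_monomial, coeff_zero_aeval _ h0]
  | add p q hp hq =>
    intro h
    rw [map_add, map_add, LinearMap.add_apply, hp, hq, map_add, LinearMap.add_apply]
  | mul_X p u hp =>
    intro h
    rw [map_mul, aeval_X, mul_comm, Finset.sum_mul, map_sum, LinearMap.sum_apply]
    have e1 : ∀ w, fis (C (L u w) * X w *
        aeval (fun u => ∑ w, C (L u w) * X w : σ → MvPolynomial σ ℂ) p) h =
        L u w * fis p (aeval (fun u => ∑ w, C (L w u) * X w : σ → MvPolynomial σ ℂ)
          (pderiv w h)) := by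
      intro w
      rw [mul_assoc, MvPolynomial.C_mul', map_smul, LinearMap.smul_apply,
        Pool.Agent.K1H24.KR.fis_X_mul, hp, smul_eq_mul]
    rw [Finset.sum_congr rfl fun w _ => e1 w, mul_comm p (X u), Pool.Agent.K1H24.KR.fis_X_mul,
      pderiv_subst, map_sum]
    refine Finset.sum_congr rfl fun w _ => ?_
    rw [map_smul, smul_eq_mul]

end Pool.Agent.K1H68.KG

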